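import Pool.Agent.H319.FPR.EA

/-!
# Finitely presented relatively free groups: elementary amenable factor groups

Let `G = F / N` be a finitely presented relatively free group (of a proper variety). We prove that in
every finitely generated group `H` that satisfies the laws of `G`, every normal subgroup `K` with
elementary amenable factor group `H / K` is finitely generated, and `H / K` is virtually nilpotent. So
`G` is virtually nilpotent if it is elementary amenable (for instance soluble), all terms of its
derived series are finitely generated, and the same holds for all finitely generated groups of the
variety generated by `G`.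

Idea of the proof. `G` contains no free subgroup of rank two. By the argument of Bieri, Neumann and
Strebel, applied to the map `χ : G → ℤ` that kills all free generators but one, and to the
automorphism that inverts the free generators, the kernel of `χ` is finitely generated (or `G` has
finite exponent). So in all groups of the variety the subgroups `⟨b ^ (a ^ j) : j ∈ ℤ⟩` are finitely
generated, and one monic integer polynomial kills conjugation by any element on any abelian normal
section. Applied to the powers of an element this makes the action quasi-unipotent.
-/

set_option autoImplicit false

namespace Pool.Agent.Results.MP_5120d5_al.ElementaryAmenable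

/-- The closure properties of the class of elementary amenable groups: it contains the finite and
the abelian groups and is closed under isomorphisms, subgroups, factor groups, extensions and
directed unions. -/
structure EAClosed (P : ∀ (G : Type) [Group G], Prop) : Prop where
  finite : ∀ (G : Type) [Group G] [Finite G], P G
  comm : ∀ (G : Type) [Group G], (∀ a b : G, a * b = b * a) → P G
  iso : ∀ (G G' : Type) [Group G] [Group G'], (G ≃* G') → P G → P G'
  sub : ∀ (G : Type) [Group G] (S : Subgroup G), P G → P S
  quot : ∀ (G : Type) [Group G] (M : Subgroup G) [M.Normal], P G → P (G ⧸ M)
  ext : ∀ (G : Type) [Group G] (M : Subgroup G) [M.Normal], P M → P (G ⧸ M) → P G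
  union : ∀ (G : Type) [Group G], (∀ S : Subgroup G, S.FG → P S) → P G

/-- Elementary amenable groups: the smallest class with these closure properties. -/
def ElemAmenable (G : Type) [Group G] : Prop :=
  ∀ P : (∀ (G : Type) [Group G], Prop), EAClosed P → P G

/-- `G` has a nilpotent subgroup of finite index. -/
def VirtNilp (G : Type) [Group G] : Prop :=
  ∃ U : Subgroup G, U.FiniteIndex ∧ Group.IsNilpotent U

/-- `N` is a nontrivial subgroup of the free group of rank `n`, mapped into itself by all
endomorphisms and generated by the conjugates of finitely many elements; that is, the group `F / N`
is relatively free in a proper variety, and finitely presented. -/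
def FPRelFree {n : ℕ} (N : Subgroup (FreeGroup (Fin n))) : Prop :=
  N ≠ ⊥ ∧ (∀ φ : FreeGroup (Fin n) →* FreeGroup (Fin n), ∀ x ∈ N, φ x ∈ N) ∧
    ∃ R : Set (FreeGroup (Fin n)), R.Finite ∧ Subgroup.normalClosure R = N

/-- `H` satisfies the laws of `F / N`: every homomorphism `F → H` kills `N`. -/
def SatisfiesLaws {n : ℕ} (N : Subgroup (FreeGroup (Fin n))) (H : Type) [Group H] : Prop :=
  ∀ f : FreeGroup (Fin n) →* H, ∀ x ∈ N, f x = 1

/-- Let `F / N` be a finitely presented relatively free group of a proper variety and `H` a finitely
generated group satisfying the laws in `N` (for instance `H = F / N`). Then every normal subgroup `K`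
of `H` with elementary amenable factor group is finitely generated, and `H / K` is virtually
nilpotent. -/
theorem result {n : ℕ} (N : Subgroup (FreeGroup (Fin n))) (hN : FPRelFree N)
    (H : Type) [Group H] (hfg : Group.FG H) (hH : SatisfiesLaws N H)
    (K : Subgroup H) [K.Normal] (hK : ElemAmenable (H ⧸ K)) : K.FG ∧ VirtNilp (H ⧸ K) := by
  obtain ⟨h1, h2, R, hR, hRN⟩ := hN
  have hNn : N.Normal := by
    rw [← hRN]
    infer_instance
  refine Pool.Agent.H319.FPR.main N h1 h2 R hR hRN hfg (fun f x hx => hH f x hx) K ?_
  intro P hP
  exact hK P ⟨hP.finite, hP.comm, hP.iso, hP.sub, hP.quot, hP.ext, hP.union⟩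

end Pool.Agent.Results.MP_5120d5_al.ElementaryAmenable
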