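import Pool.Agent.H319.FPR.Dich

/-!
# Finitely presented relatively free groups: reduction to simple and to residually virtually
nilpotent groups

Let `G = F / N` be a finitely presented relatively free group (of a proper variety), and `H` a
finitely generated group that satisfies the laws of `G` and is not virtually nilpotent, for instance
a counterexample `H = G` to the question. We prove that either `H` has a finitely generated normal
subgroup `M` without proper subgroups of finite index, with `H / M` virtually nilpotent, which has an
infinite simple factor group, or some factor group of `H` is residually virtually nilpotent but not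
virtually nilpotent.

Idea of the proof. Let `M` be the intersection of the normal subgroups with virtually nilpotent factor
groups. If `H / M` is virtually nilpotent then `M` is finitely generated, by the first hand-in on this
page (the kernel of a map of a finitely generated group of the variety onto an elementary amenable
group is finitely generated). If `M` had a proper subgroup of finite index, then it would have one, `K`,
which is normal in `H`, and `H / K` would be elementary amenable, so virtually nilpotent.
-/

set_option autoImplicit false

namespace Pool.Agent.Results.MP_5120d5_al.SimpleOrResidual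

/-- `G` has a nilpotent subgroup of finite index. -/
def VirtNilp (G : Type) [Group G] : Prop :=
  ∃ U : Subgroup G, U.FiniteIndex ∧ Group.IsNilpotent U

/-- `N` is a nontrivial subgroup of the free group of rank `n`, mapped into itself by all
endomorphisms and generated by the conjugates of finitely many elements; that is, the group `F / N`
is relatively free in a proper variety, and finitely presented. -/
def FPRelFree {n : ℕ} (N : Subgroup (FreeGroup (Fin n))) : Prop :=
  N ≠ ⊥ ∧ (∀ φ : FreeGroup (Fin n) →* FreeGroup (Fin n), ∀ x ∈ N, φ x ∈ N) ∧
    ∃ R : Set (FreeGroup (Fin n)), R.Finite ∧ Subgroup.normalClosure R = N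

/-- `H` satisfies the laws of `F / N`: every homomorphism `F → H` kills `N`. -/
def SatisfiesLaws {n : ℕ} (N : Subgroup (FreeGroup (Fin n))) (H : Type) [Group H] : Prop :=
  ∀ f : FreeGroup (Fin n) →* H, ∀ x ∈ N, f x = 1

/-- Let `F / N` be a finitely presented relatively free group of a proper variety and `H` a finitely
generated group satisfying the laws in `N` (for instance `H = F / N`) which is not virtually
nilpotent. Then one of the following holds.

(1) `H` has a finitely generated normal subgroup `M` without proper subgroups of finite index, such
that `H / M` is virtually nilpotent, and `M` has an infinite simple factor group `M / L`.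

(2) `H` has a factor group `H / M` which is not virtually nilpotent, but residually virtually
nilpotent. -/
theorem result {n : ℕ} (N : Subgroup (FreeGroup (Fin n))) (hN : FPRelFree N)
    (H : Type) [Group H] (hfg : Group.FG H) (hH : SatisfiesLaws N H) (hv : ¬ VirtNilp H) :
    (∃ (M : Subgroup H) (_ : M.Normal) (L : Subgroup M) (_ : L.Normal), M.FG ∧ VirtNilp (H ⧸ M) ∧
      (∀ U : Subgroup M, U.FiniteIndex → U = ⊤) ∧ IsSimpleGroup (M ⧸ L) ∧ Infinite (M ⧸ L)) ∨
    (∃ (M : Subgroup H) (_ : M.Normal), ¬ VirtNilp (H ⧸ M) ∧
      ∀ x ∉ M, ∃ (K : Subgroup H) (_ : K.Normal), M ≤ K ∧ x ∉ K ∧ VirtNilp (H ⧸ K)) := by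
  obtain ⟨h1, h2, R, hR, hRN⟩ := hN
  have hNn : N.Normal := by
    rw [← hRN]
    infer_instance
  exact Pool.Agent.H319.FPR.simple_or_residual N h1 h2 R hR hRN hfg (fun f x hx => hH f x hx) hv

end Pool.Agent.Results.MP_5120d5_al.SimpleOrResidual
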